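import Pool.Agent.Y234.GS.StmA

/-!
# Project GS: lifting of twisted cochain cocycles (GRO1)
-/

set_option autoImplicit false

namespace Pool.Agent.Y571.GS

open Pool.Agent.Y234.GS MvPolynomial

section dd

variable {ι L : Type} [LinearOrder ι]

theorem dd_sub [AddCommGroup L] (c c' : Finset ι → L) (S : Finset ι) :
    dd (fun S => c S - c' S) S = dd c S - dd c' S := by
  unfold dd
  rw [← Finset.sum_sub_distrib]
  exact Finset.sum_congr rfl (fun i _ => smul_sub _ _ _)

theorem card_erase_lt (S : Finset ι) {i j : ι} (hi : i ∈ S) (hij : i < j) :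
    ((S.erase i).filter (fun u => u < j)).card + 1 = (S.filter (fun u => u < j)).card := by
  rw [Finset.filter_erase]
  apply Finset.card_erase_add_one
  exact Finset.mem_filter.2 ⟨hi, hij⟩

theorem card_erase_ge (S : Finset ι) {i j : ι} (hij : ¬ i < j) :
    ((S.erase i).filter (fun u => u < j)).card = (S.filter (fun u => u < j)).card := by
  rw [Finset.filter_erase, Finset.erase_eq_of_notMem]
  intro h
  exact hij (Finset.mem_filter.1 h).2

theorem dd_dd [AddCommGroup L] (c : Finset ι → L) (S : Finset ι) : dd (dd c) S = 0 := by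
  unfold dd
  simp only [Finset.smul_sum, smul_smul, ← pow_add]
  rw [Finset.sum_sigma']
  refine Finset.sum_involution (fun p _ => ⟨p.2, p.1⟩) ?_ ?_ ?_ ?_
  · rintro ⟨i, j⟩ hp
    rw [Finset.mem_sigma, Finset.mem_erase] at hp
    obtain ⟨hi, hji, hj⟩ := hp
    simp only at hi hji hj ⊢
    rw [Finset.erase_right_comm]
    have key : ((-1 : ℤ) ^ ((S.filter (fun u => u < i)).card +
        ((S.erase i).filter (fun u => u < j)).card)) +
        ((-1 : ℤ) ^ ((S.filter (fun u => u < j)).card +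
        ((S.erase j).filter (fun u => u < i)).card)) = 0 := by
      rcases lt_or_gt_of_ne hji with h | h
      · rw [card_erase_ge S (not_lt.2 h.le), ← card_erase_lt S hj h]
        ring
      · rw [card_erase_ge S (i := j) (j := i) (not_lt.2 h.le), ← card_erase_lt S hi h]
        ring
    rw [← add_smul, key, zero_smul]
  · rintro ⟨i, j⟩ hp _ he
    rw [Finset.mem_sigma, Finset.mem_erase] at hp
    simp only [Sigma.mk.injEq] at he
    exact hp.2.1 he.1
  · rintro ⟨i, j⟩ hp
    rw [Finset.mem_sigma, Finset.mem_erase] at hp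
    rw [Finset.mem_sigma, Finset.mem_erase]
    exact ⟨hp.2.2, fun h => hp.2.1 h.symm, hp.1⟩
  · rintro ⟨i, j⟩ _
    rfl

theorem dd_smul {K : Type} [Field K] [Field L] [Algebra K L] (γ : Finset ι → K) (X : L)
    (S : Finset ι) : dd (fun S => γ S • X) S = dd γ S • X := by
  unfold dd
  rw [Finset.sum_smul]
  exact Finset.sum_congr rfl (fun i _ => (smul_assoc _ _ _).symm)

end dd

section wsec

variable {ι K L : Type} [Fintype ι] [Field K] [Field L] [Algebra K L] {x : ι → L} {w : ι → ℕ}

theorem WV_mono {e : ℕ} {s s' : ℤ} (h : s ≤ s') : WV K x w e s ≤ WV K x w e s' := by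
  apply Submodule.span_mono
  rintro a ⟨b, h1, h2, h3⟩
  exact ⟨b, h1, h2.trans h, h3⟩

theorem WSec_mono {m s s' : ℤ} {S : Finset ι} (h : s ≤ s') {a : L}
    (ha : a ∈ WSec K x w m s S) : a ∈ WSec K x w m s' S := by
  obtain ⟨N, e, h1, h2⟩ := ha
  exact ⟨N, e, h1, WV_mono (by linarith) h2⟩

theorem raise1 (S : Finset ι) {e : ℕ} {s : ℤ} {a : L} (ha : a ∈ WV K x w e s) :
    (∏ i ∈ S, x i) * a ∈ WV K x w (e + S.card) (s + ∑ i ∈ S, (w i : ℤ)) := by
  classical
  unfold WV at ha
  induction ha using Submodule.span_induction with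
  | mem z hz =>
    obtain ⟨b, h1, h2, rfl⟩ := hz
    apply Submodule.subset_span
    refine ⟨fun i => b i + (if i ∈ S then 1 else 0), ?_, ?_, ?_⟩
    · unfold deg at h1 ⊢
      rw [Finset.sum_add_distrib, h1, Finset.sum_ite_mem, Finset.univ_inter,
        Finset.sum_const, smul_eq_mul, mul_one]
    · have : (wt w (fun i => b i + (if i ∈ S then 1 else 0)) : ℤ) =
          (wt w b : ℤ) + ∑ i ∈ S, (w i : ℤ) := by
        unfold wt
        push_cast
        simp only [mul_add, Finset.sum_add_distrib]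
        congr 1
        rw [← Finset.sum_filter_add_sum_filter_not Finset.univ (fun i => i ∈ S)]
        rw [Finset.sum_eq_zero (s := Finset.univ.filter (fun i => ¬ i ∈ S))]
        · rw [add_zero, Finset.filter_mem_eq_inter, Finset.univ_inter]
          apply Finset.sum_congr rfl
          intro i hi
          simp [hi]
        · intro i hi
          rw [Finset.mem_filter] at hi
          simp [hi.2]
      rw [this]
      linarith
    · unfold mon
      simp only [pow_add, Finset.prod_mul_distrib]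
      rw [mul_comm]
      congr 1
      rw [← Finset.prod_filter_mul_prod_filter_not Finset.univ (fun i => i ∈ S)]
      rw [Finset.prod_eq_one (s := Finset.univ.filter (fun i => ¬ i ∈ S))]
      · rw [mul_one, Finset.filter_mem_eq_inter, Finset.univ_inter]
        apply Finset.prod_congr rfl
        intro i hi
        simp [hi]
      · intro i hi
        rw [Finset.mem_filter] at hi
        simp [hi.2]
  | zero => rw [mul_zero]; exact Submodule.zero_mem _
  | add z z' _ _ h1 h2 => rw [mul_add]; exact Submodule.add_mem _ h1 h2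
  | smul r z _ h1 => rw [mul_smul_comm]; exact Submodule.smul_mem _ _ h1

theorem raise {m s : ℤ} {S : Finset ι} {a : L} {N e : ℕ} (h1 : (e : ℤ) = m + N * S.card)
    (h2 : (∏ i ∈ S, x i) ^ N * a ∈ WV K x w e (s + N * (∑ i ∈ S, (w i : ℤ)))) (k : ℕ) :
    ∃ e' : ℕ, (e' : ℤ) = m + ((N + k : ℕ) : ℤ) * S.card ∧
      (∏ i ∈ S, x i) ^ (N + k) * a ∈
        WV K x w e' (s + ((N + k : ℕ) : ℤ) * (∑ i ∈ S, (w i : ℤ))) := by
  induction k with
  | zero => exact ⟨e, h1, h2⟩
  | succ k ih =>
    obtain ⟨e', h3, h4⟩ := ih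
    refine ⟨e' + S.card, ?_, ?_⟩
    · push_cast at h3 ⊢
      rw [h3]
      ring
    · have := raise1 S h4
      rw [← mul_assoc, ← pow_succ'] at this
      have e1 : s + ((N + (k + 1) : ℕ) : ℤ) * (∑ i ∈ S, (w i : ℤ)) =
          s + ((N + k : ℕ) : ℤ) * (∑ i ∈ S, (w i : ℤ)) + ∑ i ∈ S, (w i : ℤ) := by
        push_cast
        ring
      rw [e1]
      exact this

theorem WSec_smul {m s : ℤ} {S : Finset ι} (r : K) {a : L} (ha : a ∈ WSec K x w m s S) :
    r • a ∈ WSec K x w m s S := by
  obtain ⟨N, e, h1, h2⟩ := ha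
  refine ⟨N, e, h1, ?_⟩
  rw [mul_smul_comm]
  exact Submodule.smul_mem _ _ h2

theorem WSec_neg {m s : ℤ} {S : Finset ι} {a : L} (ha : a ∈ WSec K x w m s S) :
    -a ∈ WSec K x w m s S := by
  have := WSec_smul (-1 : K) ha
  rwa [neg_smul, one_smul] at this

theorem WSec_add {m s : ℤ} {S : Finset ι} {a b : L} (ha : a ∈ WSec K x w m s S)
    (hb : b ∈ WSec K x w m s S) : a + b ∈ WSec K x w m s S := by
  obtain ⟨N, e, h1, h2⟩ := ha
  obtain ⟨N', e', h1', h2'⟩ := hb
  obtain ⟨f, h3, h4⟩ := raise h1 h2 N'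
  obtain ⟨f', h3', h4'⟩ := raise h1' h2' N
  rw [add_comm N' N] at h3' h4'
  have hf : f = f' := by
    have : (f : ℤ) = f' := by rw [h3, h3']
    exact_mod_cast this
  subst hf
  refine ⟨N + N', f, h3, ?_⟩
  rw [mul_add]
  exact Submodule.add_mem _ h4 h4'

theorem WSec_sub {m s : ℤ} {S : Finset ι} {a b : L} (ha : a ∈ WSec K x w m s S)
    (hb : b ∈ WSec K x w m s S) : a - b ∈ WSec K x w m s S := by
  rw [sub_eq_add_neg]
  exact WSec_add ha (WSec_neg hb)

theorem WSec_zero {m s : ℤ} {S : Finset ι} (hS : S.Nonempty) : (0 : L) ∈ WSec K x w m s S := by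
  have hc : 1 ≤ S.card := hS.card_pos
  refine ⟨m.natAbs, (m + m.natAbs * S.card).toNat, ?_, ?_⟩
  · apply Int.toNat_of_nonneg
    have h1 : -(m.natAbs : ℤ) ≤ m := by omega
    have h2 : (m.natAbs : ℤ) * 1 ≤ m.natAbs * S.card := by
      apply mul_le_mul_of_nonneg_left _ (by positivity)
      exact_mod_cast hc
    linarith
  · rw [mul_zero]
    exact Submodule.zero_mem _

end wsec

/-- GRO1 -/
theorem gro1 : S_FIN → S_SYM → S_GRO1 := by
  intro hFin hSym K L ι _ _ _ _ _ x w Δ hM hG a j γ hj hγ hdd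
  obtain ⟨-, -, sym3, -, sym5⟩ := hSym K L ι x w Δ hM.ne hG
  set b₀ : ι → ℤ := fun i => -(a i : ℤ) with hb₀
  set m : ℤ := -(deg a : ℤ) with hm
  set s : ℤ := -(wt w a : ℤ) with hs
  have hdeg : degz b₀ = m := by
    unfold degz
    rw [hb₀, hm]
    unfold deg
    push_cast
    rw [Finset.sum_neg_distrib]
  have hwt : wtz w b₀ = s := by
    unfold wtz
    rw [hb₀, hs]
    unfold wt
    push_cast
    rw [← Finset.sum_neg_distrib]
    exact Finset.sum_congr rfl (fun i _ => by ring)
  have hneg : ∀ T : Finset ι, supp a ⊆ T → ∀ i, b₀ i < 0 → i ∈ T := by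
    intro T hT i hi
    apply hT
    unfold supp
    rw [Finset.mem_filter]
    refine ⟨Finset.mem_univ i, ?_⟩
    intro h0
    rw [hb₀] at hi
    simp only at hi
    rw [h0] at hi
    simp at hi
  set X : L := monz x b₀ with hX
  set z0 : Finset ι → L := fun S => γ S • X with hz0
  have hz0W : ∀ S : Finset ι, S.card = j → z0 S ∈ WSec K x w m s S := by
    intro S hS
    have hSn : S.Nonempty := Finset.card_pos.1 (by omega)
    by_cases h0 : γ S = 0
    · have : z0 S = 0 := by rw [hz0]; simp only; rw [h0, zero_smul]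
      rw [this]
      exact WSec_zero hSn
    · have h1 := sym3 S b₀ (hneg S (hγ S h0).1)
      rw [hdeg, hwt] at h1
      exact WSec_smul _ h1
  have hdz : ∀ T, dd z0 T = dd γ T • X := fun T => dd_smul γ X T
  have hddW : ∀ (M : ℕ) (T : Finset ι), T.card = j + 1 → dd z0 T ∈ WSec K x w m (s - M) T := by
    intro M T hT
    have hTn : T.Nonempty := Finset.card_pos.1 (by omega)
    rw [hdz]
    by_cases h0 : dd γ T = 0
    · rw [h0, zero_smul]
      exact WSec_zero hTn
    · have hTΔ : T ∉ Δ := fun h => h0 (hdd T h hT)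
      obtain ⟨i, hi, hne⟩ := Finset.exists_ne_zero_of_sum_ne_zero h0
      have h1 : γ (T.erase i) ≠ 0 := by
        intro h
        rw [h, smul_zero] at hne
        exact hne rfl
      have h2 : supp a ⊆ T := (hγ _ h1).1.trans (Finset.erase_subset _ _)
      have h3 := sym5 T b₀ (hneg T h2) hTΔ hTn M
      rw [hdeg, hwt] at h3
      exact WSec_smul _ h3
  obtain ⟨s0, hs0⟩ := hFin K L ι x w hM m (j + 1) (by omega)
  obtain ⟨M, hM1, hM2⟩ : ∃ M : ℕ, 1 ≤ M ∧ s - M < s0 := by
    refine ⟨(s - s0).natAbs + 1, by omega, ?_⟩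
    have h1 : s - s0 ≤ ((s - s0).natAbs : ℤ) := Int.le_natAbs
    rw [Nat.cast_add, Nat.cast_one]
    linarith
  obtain ⟨b, hb1, hb2⟩ := hs0 (s - M) hM2 (dd z0)
    ⟨hddW M, fun T _ => dd_dd z0 T⟩
  rw [Nat.add_sub_cancel] at hb1
  refine ⟨fun S => z0 S - b S, ⟨?_, ?_⟩, ?_⟩
  · intro S hS
    exact WSec_sub (hz0W S hS) (WSec_mono (by omega) (hb1 S hS))
  · intro T hT
    rw [dd_sub, hb2 T hT, sub_self]
  · intro S _ hS
    have : z0 S - b S - γ S • X = - b S := by
      rw [hz0]
      ring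
    rw [this]
    exact WSec_neg (WSec_mono (by omega) (hb1 S hS))

end Pool.Agent.Y571.GS
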